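import Pool.Agent.helper55.FLD.Spec

/-!
# Row fld:LA (the lattice)
-/

set_option autoImplicit false

namespace Pool.Agent.FLD

open Matrix Topology Filter

/-- the integers of an ultrametric field -/
def LA_int (K : Type) [NormedField K] [IsUltrametricDist K] : Subring K where
  carrier := {x | ‖x‖ ≤ 1}
  mul_mem' := by
    intro x y hx hy
    show ‖x * y‖ ≤ 1
    rw [norm_mul]
    exact mul_le_one₀ hx (norm_nonneg _) hy
  one_mem' := by show ‖(1 : K)‖ ≤ 1; rw [norm_one]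
  add_mem' := by
    intro x y hx hy
    exact (IsUltrametricDist.norm_add_le_max x y).trans (max_le hx hy)
  zero_mem' := by show ‖(0 : K)‖ ≤ 1; rw [norm_zero]; exact zero_le_one
  neg_mem' := by
    intro x hx
    show ‖-x‖ ≤ 1
    rw [norm_neg]
    exact hx

theorem LA_int_eq (K : Type) [NormedField K] [IsUltrametricDist K] :
    ((LA_int K : Subring K) : Set K) = Metric.closedBall (0 : K) 1 := by
  ext x
  rw [mem_closedBall_zero_iff]
  rfl

theorem LA_tendsto (p : ℕ) [Fact p.Prime] (r : ℝ) (hr : 0 ≤ r)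
    (h : ∀ k : ℕ, r ≤ ((p : ℝ)⁻¹) ^ k) : r = 0 := by
  have hp : 1 < (p : ℝ) := by exact_mod_cast (Fact.out : p.Prime).one_lt
  have h1 : Tendsto (fun k : ℕ => ((p : ℝ)⁻¹) ^ k) atTop (𝓝 0) :=
    tendsto_pow_atTop_nhds_zero_of_lt_one (by positivity) (inv_lt_one_of_one_lt₀ hp)
  exact le_antisymm (ge_of_tendsto' h1 h) hr

theorem LA_norm_pow (p : ℕ) [Fact p.Prime] (k : ℕ) :
    ‖((p : ℚ_[p]) ^ k)‖ = ((p : ℝ)⁻¹) ^ k := by
  rw [norm_pow, Padic.norm_p]

theorem LA : LA_stmt := by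
  intro p _ n F _ _ _ _ _
  have hF : IsUltrametricDist F := IsUltrametricDist.of_normedAlgebra ℚ_[p]
  have hprop : ProperSpace F := FiniteDimensional.proper ℚ_[p] F
  let R1 : Subring (Matrix n n ℚ_[p]) := (LA_int ℚ_[p]).matrix
  let R2 : Subring (Matrix (Fin 2) (Fin 2) F) := (LA_int F).matrix
  have hmem : ∀ x, x ∈ R1.prod R2 ↔ Integral p x := by
    intro x
    rw [Subring.mem_prod]
    exact Iff.rfl
  have hset : ((R1.prod R2 : Subring _) : Set (Matrix n n ℚ_[p] × Matrix (Fin 2) (Fin 2) F)) =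
      (Set.matrix (Metric.closedBall (0 : ℚ_[p]) 1)) ×ˢ (Set.matrix (Metric.closedBall (0 : F) 1)) := by
    rw [← LA_int_eq, ← LA_int_eq]
    rfl
  refine ⟨R1.prod R2, hmem, ⟨?_, ?_, ?_, ?_⟩, ?_⟩
  · rw [hset]
    exact (isCompact_closedBall _ _).matrix.prod (isCompact_closedBall _ _).matrix
  · rw [hset]
    exact (IsUltrametricDist.isOpen_closedBall _ one_ne_zero).matrix.prod
      (IsUltrametricDist.isOpen_closedBall _ one_ne_zero).matrix
  · -- sep
    intro x hx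
    have h1 : ∀ i j, x.1 i j = 0 := by
      intro i j
      rw [← norm_eq_zero]
      apply LA_tendsto p _ (norm_nonneg _)
      intro k
      obtain ⟨r, hr, hxr⟩ := hx k
      have h2 : x.1 i j = ((p : ℚ_[p]) ^ k) * r.1 i j := by
        rw [hxr]; rfl
      rw [h2, norm_mul, LA_norm_pow]
      have h3 : ‖r.1 i j‖ ≤ 1 := ((hmem r).mp hr).1 i j
      exact mul_le_of_le_one_right (by positivity) h3
    have h2 : ∀ i j, x.2 i j = 0 := by
      intro i j
      rw [← norm_eq_zero]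
      apply LA_tendsto p _ (norm_nonneg _)
      intro k
      obtain ⟨r, hr, hxr⟩ := hx k
      have h2 : x.2 i j = ((p : ℚ_[p]) ^ k) • r.2 i j := by
        rw [hxr]; rfl
      rw [h2, norm_smul, LA_norm_pow]
      have h3 : ‖r.2 i j‖ ≤ 1 := ((hmem r).mp hr).2 i j
      exact mul_le_of_le_one_right (by positivity) h3
    ext i j
    · exact h1 i j
    · exact h2 i j
  · -- abs
    intro x
    have hp : 1 < (p : ℝ) := by exact_mod_cast (Fact.out : p.Prime).one_lt
    set C : ℝ := (∑ i, ∑ j, ‖x.1 i j‖) + ∑ i, ∑ j, ‖x.2 i j‖ with hC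
    obtain ⟨k, hk⟩ := pow_unbounded_of_one_lt C hp
    refine ⟨k, (hmem _).mpr ⟨?_, ?_⟩⟩
    · intro i j
      have h1 : ‖x.1 i j‖ ≤ C := by
        have h2 : ‖x.1 i j‖ ≤ ∑ j, ‖x.1 i j‖ :=
          Finset.single_le_sum (f := fun j => ‖x.1 i j‖) (fun _ _ => norm_nonneg _)
            (Finset.mem_univ j)
        have h3 : ∑ j, ‖x.1 i j‖ ≤ ∑ i, ∑ j, ‖x.1 i j‖ :=
          Finset.single_le_sum (f := fun i => ∑ j, ‖x.1 i j‖)
            (fun _ _ => Finset.sum_nonneg fun _ _ => norm_nonneg _) (Finset.mem_univ i)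
        have h4 : 0 ≤ ∑ i, ∑ j, ‖x.2 i j‖ :=
          Finset.sum_nonneg fun _ _ => Finset.sum_nonneg fun _ _ => norm_nonneg _
        linarith
      show ‖((p : ℚ_[p]) ^ k) * x.1 i j‖ ≤ 1
      rw [norm_mul, LA_norm_pow, inv_pow, inv_mul_le_iff₀ (by positivity), mul_one]
      exact h1.trans hk.le
    · intro i j
      have h1 : ‖x.2 i j‖ ≤ C := by
        have h2 : ‖x.2 i j‖ ≤ ∑ j, ‖x.2 i j‖ :=
          Finset.single_le_sum (f := fun j => ‖x.2 i j‖) (fun _ _ => norm_nonneg _)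
            (Finset.mem_univ j)
        have h3 : ∑ j, ‖x.2 i j‖ ≤ ∑ i, ∑ j, ‖x.2 i j‖ :=
          Finset.single_le_sum (f := fun i => ∑ j, ‖x.2 i j‖)
            (fun _ _ => Finset.sum_nonneg fun _ _ => norm_nonneg _) (Finset.mem_univ i)
        have h4 : 0 ≤ ∑ i, ∑ j, ‖x.1 i j‖ :=
          Finset.sum_nonneg fun _ _ => Finset.sum_nonneg fun _ _ => norm_nonneg _
        linarith
      show ‖((p : ℚ_[p]) ^ k) • x.2 i j‖ ≤ 1
      rw [norm_smul, LA_norm_pow, inv_pow, inv_mul_le_iff₀ (by positivity), mul_one]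
      exact h1.trans hk.le
  · intro c hc x hx
    have hx' := (hmem x).mp hx
    refine (hmem _).mpr ⟨?_, ?_⟩
    · intro i j
      show ‖c * x.1 i j‖ ≤ 1
      rw [norm_mul]
      exact mul_le_one₀ hc (norm_nonneg _) (hx'.1 i j)
    · intro i j
      show ‖c • x.2 i j‖ ≤ 1
      rw [norm_smul]
      exact mul_le_one₀ hc (norm_nonneg _) (hx'.2 i j)

end Pool.Agent.FLD
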